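import Mathlib

set_option autoImplicit false

/-!
# Project DI: the abstract uniqueness argument with damping (one-sided bounds, discretized time)
-/

open Set Filter Topology MeasureTheory Metric

namespace Pool.Agent.Y407.DI

/-- an upper bound of the derivative bounds the increments -/
theorem incr {f f' : ℝ → ℝ} {b K : ℝ}
    (hd : ∀ x ∈ Icc 0 b, HasDerivWithinAt f (f' x) (Icc 0 b) x) {p q : ℝ} (hp : 0 ≤ p) (hpq : p ≤ q)
    (hq : q ≤ b) (hK : ∀ x ∈ Icc p q, f' x ≤ K) : f q - f p ≤ K * (q - p) := by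
  have hsub : Icc p q ⊆ Icc 0 b := Icc_subset_Icc hp hq
  have h1 : AntitoneOn (fun x => f x - K * x) (Icc p q) := by
    apply antitoneOn_of_hasDerivWithinAt_nonpos (f' := fun x => f' x - K) (convex_Icc p q)
    · intro x hx
      exact ((hd x (hsub hx)).continuousWithinAt.mono hsub).sub
        ((continuous_const.mul continuous_id).continuousWithinAt)
    · intro x hx
      have hx' : x ∈ Icc p q := interior_subset hx
      refine ((hd x (hsub hx')).mono (interior_subset.trans hsub)).sub ?_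
      have h2 : HasDerivWithinAt (fun x : ℝ => K * x) (K * 1) (interior (Icc p q)) x :=
        (hasDerivWithinAt_id x _).const_mul K
      rwa [mul_one] at h2
    · intro x hx
      have hx' : x ∈ Icc p q := interior_subset hx
      linarith [hK x hx']
  have h3 := h1 (left_mem_Icc.2 hpq) (right_mem_Icc.2 hpq) hpq
  simp only at h3
  linarith

/-- a discrete Gronwall inequality -/
theorem dgron (a : ℕ → ℝ) (E κ : ℝ) (_hE : 0 ≤ E) (hκ : 0 ≤ κ) (n : ℕ)
    (h : ∀ k, k ≤ n → a k ≤ E + κ * ∑ j ∈ Finset.range k, a j) :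
    ∀ k, k ≤ n → E + κ * ∑ j ∈ Finset.range k, a j ≤ E * (1 + κ) ^ k := by
  intro k
  induction k with
  | zero => intro _; simp
  | succ k ih =>
    intro hk
    have h1 := ih (by omega)
    have h2 := h k (by omega)
    rw [Finset.sum_range_succ, pow_succ]
    have h3 : κ * a k ≤ κ * (E * (1 + κ) ^ k) := mul_le_mul_of_nonneg_left (h2.trans h1) hκ
    linarith

/-- vanishing -/
theorem zero_of_le {w R : ℝ} (hw : 0 ≤ w) (hR : 0 ≤ R)
    (h : ∀ δ : ℝ, 0 < δ → δ ≤ 1 → w ≤ δ * R) : w = 0 := by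
  by_contra hne
  have hpos : 0 < w := lt_of_le_of_ne hw (Ne.symm hne)
  have hk : 0 < 2 * (R + 1) := by linarith
  have h1 := h (min 1 (w / (2 * (R + 1)))) (lt_min one_pos (div_pos hpos hk)) (min_le_left _ _)
  have h2 : min 1 (w / (2 * (R + 1))) * R ≤ w / (2 * (R + 1)) * R :=
    mul_le_mul_of_nonneg_right (min_le_right _ _) hR
  have h3 : w / (2 * (R + 1)) * R = (w / 2) * (R / (R + 1)) := by
    field_simp
  have h4 : R / (R + 1) ≤ 1 := by
    rw [div_le_one (by linarith)]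
    linarith
  have h5 : (w / 2) * (R / (R + 1)) ≤ (w / 2) * 1 := mul_le_mul_of_nonneg_left h4 (by linarith)
  linarith

/-- The abstract uniqueness argument with damping: the squares of the norms of the projections
have derivatives which are bounded from above only; time is discretized. -/
theorem abs_uniqD {ι : Type} (lam : ι → ℝ) (hlam : ∀ i, 0 ≤ lam i)
    {b M C V B : ℝ} (hb : 0 ≤ b) (hM : 0 ≤ M) (hC : 0 ≤ C) (hV : 0 ≤ V) (c g : ι → ℝ → ℝ)
    (W : ℝ → ℝ) (hB : ∀ τ ∈ Icc 0 b, W τ ≤ B)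
    (hd : ∀ i, ∀ τ ∈ Icc 0 b, HasDerivWithinAt (c i) (-(lam i * c i τ) + g i τ) (Icc 0 b) τ)
    (h0 : ∀ i, c i 0 = 0)
    (hle : ∀ τ ∈ Icc 0 b, ∀ F : Finset ι, ∑ i ∈ F, c i τ ^ 2 ≤ W τ)
    (hcv : ∀ τ ∈ Icc 0 b, ∀ ε > 0, ∃ F0 : Finset ι, ∀ F, F0 ⊆ F → W τ - ∑ i ∈ F, c i τ ^ 2 < ε)
    (h1 : ∀ τ ∈ Icc 0 b, ∀ F : Finset ι,
      |∑ i ∈ F, c i τ * g i τ| ≤ C * (V + ∑ i ∈ F, c i τ ^ 2))
    (h2 : ∀ τ ∈ Icc 0 b, ∀ F : Finset ι, ∀ δ : ℝ, 0 < δ →
      ∑ i ∈ F, c i τ * g i τ ≤ M * W τ + C * (δ * V + δ⁻¹ * (W τ - ∑ i ∈ F, c i τ ^ 2))) :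
    ∀ τ ∈ Icc 0 b, W τ = 0 := by
  classical
  obtain ⟨f, hf⟩ : ∃ f : Finset ι → ℝ → ℝ, f = fun F τ => ∑ i ∈ F, c i τ ^ 2 := ⟨_, rfl⟩
  have hfx : ∀ F τ, f F τ = ∑ i ∈ F, c i τ ^ 2 := fun F τ => by rw [hf]
  have hW0 : ∀ τ ∈ Icc 0 b, 0 ≤ W τ := by
    intro τ hτ
    have := hle τ hτ ∅
    rwa [Finset.sum_empty] at this
  have hB0 : 0 ≤ B := (hW0 0 ⟨le_rfl, hb⟩).trans (hB 0 ⟨le_rfl, hb⟩)
  obtain ⟨f', hf'⟩ : ∃ f' : Finset ι → ℝ → ℝ, f' = fun F τ =>
    ∑ i ∈ F, (2 * c i τ * (-(lam i * c i τ) + g i τ)) := ⟨_, rfl⟩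
  have hfd : ∀ F, ∀ τ ∈ Icc 0 b, HasDerivWithinAt (f F) (f' F τ) (Icc 0 b) τ := by
    intro F τ hτ
    rw [hf, hf']
    refine HasDerivWithinAt.fun_sum fun i _ => ?_
    refine ((hd i τ hτ).fun_pow 2).congr_deriv ?_
    norm_num
  have hf'le : ∀ F τ, f' F τ ≤ 2 * ∑ i ∈ F, c i τ * g i τ := by
    intro F τ
    rw [hf', Finset.mul_sum]
    refine Finset.sum_le_sum fun i _ => ?_
    have := mul_nonneg (hlam i) (sq_nonneg (c i τ))
    nlinarith
  obtain ⟨L, hL⟩ : ∃ L : ℝ, L = 2 * (C * (V + B)) := ⟨_, rfl⟩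
  have hL0 : 0 ≤ L := by rw [hL]; positivity
  -- one-sided Lipschitz bounds
  have hflip : ∀ F x y, 0 ≤ x → x ≤ y → y ≤ b → f F y - f F x ≤ L * (y - x) := by
    intro F x y hx hxy hy
    refine incr (hfd F) hx hxy hy fun τ hτ => ?_
    have hτ' : τ ∈ Icc 0 b := ⟨hx.trans hτ.1, hτ.2.trans hy⟩
    refine (hf'le F τ).trans ?_
    rw [hL]
    refine mul_le_mul_of_nonneg_left ?_ (by norm_num)
    refine (le_abs_self _).trans ((h1 τ hτ' F).trans (mul_le_mul_of_nonneg_left ?_ hC))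
    exact add_le_add le_rfl ((hle τ hτ' _).trans (hB τ hτ'))
  have hWlip : ∀ x y, 0 ≤ x → x ≤ y → y ≤ b → W y ≤ W x + L * (y - x) := by
    intro x y hx hxy hy
    refine le_of_forall_pos_le_add fun ε hε => ?_
    obtain ⟨F0, hF0⟩ := hcv y ⟨hx.trans hxy, hy⟩ ε hε
    have h3 := hF0 F0 (Finset.Subset.refl _)
    rw [← hfx] at h3
    have h4 := hflip F0 x y hx hxy hy
    have h5 := hle x ⟨hx, hxy.trans hy⟩ F0
    rw [← hfx] at h5
    linarith
  have hWz : W 0 = 0 := by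
    have h00 : (0 : ℝ) ∈ Icc 0 b := ⟨le_rfl, hb⟩
    refine le_antisymm (le_of_forall_pos_le_add fun ε hε => ?_) (hW0 0 h00)
    obtain ⟨F0, hF0⟩ := hcv 0 h00 ε hε
    have h3 := hF0 F0 (Finset.Subset.refl _)
    have h4 : ∑ i ∈ F0, c i 0 ^ 2 = 0 := Finset.sum_eq_zero fun i _ => by rw [h0]; norm_num
    rw [h4] at h3
    linarith
  intro t ht
  obtain ⟨R, hR⟩ : ∃ R : ℝ, R = (1 + b * (2 * M * L + 2 * C * V + 2 * C + 4 * C * L)) *
    Real.exp (2 * M * b) := ⟨_, rfl⟩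
  have hR1 : 0 ≤ 2 * M * L + 2 * C * V + 2 * C + 4 * C * L := by positivity
  have hR0 : 0 ≤ R := by rw [hR]; positivity
  refine zero_of_le (hW0 t ht) hR0 fun δ hδ hδ1 => ?_
  -- the partition
  obtain ⟨n, hn⟩ := exists_nat_gt (t / δ ^ 2)
  have hδ2 : 0 < δ ^ 2 := by positivity
  have hn0 : (0 : ℝ) < n := lt_of_le_of_lt (div_nonneg ht.1 hδ2.le) hn
  obtain ⟨h, hh⟩ : ∃ h : ℝ, h = t / n := ⟨_, rfl⟩
  have hh0 : 0 ≤ h := by rw [hh]; exact div_nonneg ht.1 hn0.le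
  have hhn : n * h = t := by rw [hh]; field_simp
  have hhδ : h ≤ δ ^ 2 := by
    rw [hh, div_le_iff₀ hn0]
    rw [div_lt_iff₀ hδ2] at hn
    linarith
  have htj : ∀ j : ℕ, j ≤ n → 0 ≤ (j : ℝ) * h ∧ (j : ℝ) * h ≤ b := by
    intro j hj
    have hj' : (j : ℝ) ≤ n := by exact_mod_cast hj
    refine ⟨by positivity, ?_⟩
    calc (j : ℝ) * h ≤ n * h := mul_le_mul_of_nonneg_right hj' hh0
      _ = t := hhn
      _ ≤ b := ht.2
  -- one finite set for all points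
  have hF : ∃ F : Finset ι, ∀ j : ℕ, j ≤ n → W (j * h) - f F (j * h) < δ ^ 2 := by
    have h3 : ∀ j : ℕ, ∃ F0 : Finset ι, j ≤ n → ∀ F, F0 ⊆ F →
        W (j * h) - ∑ i ∈ F, c i (j * h) ^ 2 < δ ^ 2 := by
      intro j
      by_cases hj : j ≤ n
      · obtain ⟨F0, hF0⟩ := hcv (j * h) ⟨(htj j hj).1, (htj j hj).2⟩ (δ ^ 2) hδ2
        exact ⟨F0, fun _ => hF0⟩
      · exact ⟨∅, fun hj' => absurd hj' hj⟩
    choose G hG using h3
    refine ⟨(Finset.range (n + 1)).biUnion G, fun j hj => ?_⟩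
    rw [hfx]
    exact hG j hj _ (Finset.subset_biUnion_of_mem G (Finset.mem_range.2 (by omega)))
  obtain ⟨F, hF⟩ := hF
  obtain ⟨a, ha⟩ : ∃ a : ℕ → ℝ, a = fun j : ℕ => W (j * h) := ⟨_, rfl⟩
  obtain ⟨φ, hφ⟩ : ∃ φ : ℕ → ℝ, φ = fun j : ℕ => f F (j * h) := ⟨_, rfl⟩
  have ha0 : a 0 = 0 := by rw [ha]; simp [hWz]
  have hφ0 : φ 0 = 0 := by
    rw [hφ]
    simp only [Nat.cast_zero, zero_mul]
    rw [hfx]
    exact Finset.sum_eq_zero fun i _ => by rw [h0]; norm_num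
  have hanonneg : ∀ j, j ≤ n → 0 ≤ a j := by
    intro j hj
    rw [ha]
    exact hW0 _ ⟨(htj j hj).1, (htj j hj).2⟩
  have haφ : ∀ j, j ≤ n → a j ≤ φ j + δ ^ 2 := by
    intro j hj
    have := hF j hj
    rw [ha, hφ]
    simp only
    linarith
  obtain ⟨Q, hQ⟩ : ∃ Q : ℝ, Q = 2 * M * (L * h) + 2 * C * (δ * V) +
    2 * C * δ⁻¹ * (δ ^ 2 + 2 * (L * h)) := ⟨_, rfl⟩
  -- the increments
  have hstep : ∀ j, j < n → φ (j + 1) - φ j ≤
      (2 * M * a j + Q + 2 * C * δ⁻¹ * (a j - a (j + 1))) * h := by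
    intro j hj
    obtain ⟨p1, p2⟩ := htj j hj.le
    obtain ⟨p3, p4⟩ := htj (j + 1) hj
    have hcast : ((j + 1 : ℕ) : ℝ) * h = j * h + h := by push_cast; ring
    have hw1 := haφ (j + 1) hj
    rw [ha, hφ] at hw1 ⊢
    simp only at hw1 ⊢
    rw [hcast] at p3 p4 hw1 ⊢
    have e1 := incr (K := 2 * M * W (j * h) + Q + 2 * C * δ⁻¹ * (W (j * h) - W (j * h + h)))
      (hfd F) p1 (by linarith : (j : ℝ) * h ≤ j * h + h) p4 (fun τ hτ => by
        have hτ' : τ ∈ Icc 0 b := ⟨p1.trans hτ.1, hτ.2.trans p4⟩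
        have e2 := hWlip (j * h) τ p1 hτ.1 hτ'.2
        have e3 := hflip F τ (j * h + h) hτ'.1 hτ.2 p4
        have e4 : L * (τ - j * h) ≤ L * h := mul_le_mul_of_nonneg_left (by linarith [hτ.2]) hL0
        have e5 : L * (j * h + h - τ) ≤ L * h := mul_le_mul_of_nonneg_left (by linarith [hτ.1]) hL0
        have e6 := h2 τ hτ' F δ hδ
        rw [← hfx] at e6
        have e7 : M * W τ ≤ M * (W (j * h) + L * h) := mul_le_mul_of_nonneg_left (by linarith) hM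
        have e8 : W τ - f F τ ≤ (W (j * h) - W (j * h + h)) + (δ ^ 2 + 2 * (L * h)) := by linarith
        have e9 : C * (δ * V + δ⁻¹ * (W τ - f F τ)) ≤
            C * (δ * V + δ⁻¹ * ((W (j * h) - W (j * h + h)) + (δ ^ 2 + 2 * (L * h)))) :=
          mul_le_mul_of_nonneg_left (add_le_add le_rfl
            (mul_le_mul_of_nonneg_left e8 (inv_nonneg.2 hδ.le))) hC
        have e10 := hf'le F τ
        have e11 : 2 * (M * (W (j * h) + L * h) +
            C * (δ * V + δ⁻¹ * ((W (j * h) - W (j * h + h)) + (δ ^ 2 + 2 * (L * h))))) =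
            2 * M * W (j * h) + Q + 2 * C * δ⁻¹ * (W (j * h) - W (j * h + h)) := by
          rw [hQ]; ring
        linarith)
    have e12 : (j : ℝ) * h + h - j * h = h := by ring
    rw [e12] at e1
    exact e1
  -- summation
  have hsum : ∀ k, k ≤ n → φ k ≤ 2 * M * h * ∑ j ∈ Finset.range k, a j + k * h * Q +
      2 * C * δ⁻¹ * h * (a 0 - a k) := by
    intro k
    induction k with
    | zero => intro _; rw [hφ0]; simp
    | succ k ih =>
      intro hk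
      have e1 := ih (by omega)
      have e2 := hstep k (by omega)
      rw [Finset.sum_range_succ]
      push_cast
      have e3 : 2 * M * h * (∑ j ∈ Finset.range k, a j + a k) + (k + 1) * h * Q +
          2 * C * δ⁻¹ * h * (a 0 - a (k + 1)) =
          (2 * M * h * ∑ j ∈ Finset.range k, a j + k * h * Q + 2 * C * δ⁻¹ * h * (a 0 - a k)) +
          (2 * M * a k + Q + 2 * C * δ⁻¹ * (a k - a (k + 1))) * h := by ring
      rw [e3]
      linarith
  have hδi : 0 ≤ δ⁻¹ := inv_nonneg.2 hδ.le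
  have hQ0 : 0 ≤ Q := by rw [hQ]; positivity
  obtain ⟨E, hE⟩ : ∃ E : ℝ, E = δ ^ 2 + b * Q := ⟨_, rfl⟩
  have hE0 : 0 ≤ E := by rw [hE]; positivity
  have hgr : ∀ k, k ≤ n → a k ≤ E + 2 * M * h * ∑ j ∈ Finset.range k, a j := by
    intro k hk
    have e1 := haφ k hk
    have e2 := hsum k hk
    have e3 : (k : ℝ) * h * Q ≤ b * Q := mul_le_mul_of_nonneg_right (htj k hk).2 hQ0
    have e4 : 2 * C * δ⁻¹ * h * (a 0 - a k) ≤ 0 := by
      rw [ha0]
      apply mul_nonpos_of_nonneg_of_nonpos (by positivity)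
      linarith [hanonneg k hk]
    rw [hE]
    linarith
  have hfin := dgron a E (2 * M * h) hE0 (by positivity) n hgr n le_rfl
  have e1 := hgr n le_rfl
  have e2 : W t = a n := by rw [ha]; simp only; rw [hhn]
  have e3 : (1 + 2 * M * h) ^ n ≤ Real.exp (2 * M * b) := by
    have e4 : 1 + 2 * M * h ≤ Real.exp (2 * M * h) := by
      have := Real.add_one_le_exp (2 * M * h)
      linarith
    calc (1 + 2 * M * h) ^ n ≤ (Real.exp (2 * M * h)) ^ n :=
          pow_le_pow_left₀ (by positivity) e4 n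
      _ = Real.exp (n * (2 * M * h)) := by rw [← Real.exp_nat_mul]
      _ ≤ Real.exp (2 * M * b) := by
          apply Real.exp_le_exp.2
          have : (n : ℝ) * (2 * M * h) = 2 * M * (n * h) := by ring
          rw [this, hhn]
          exact mul_le_mul_of_nonneg_left ht.2 (by positivity)
  have e5 : E ≤ δ * (1 + b * (2 * M * L + 2 * C * V + 2 * C + 4 * C * L)) := by
    have q1 : δ ^ 2 ≤ δ := by
      rw [sq]
      exact mul_le_of_le_one_right hδ.le hδ1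
    have q2 : L * h ≤ L * δ ^ 2 := mul_le_mul_of_nonneg_left hhδ hL0
    have q3 : δ⁻¹ * δ ^ 2 = δ := by field_simp
    have q4 : Q ≤ δ * (2 * M * L + 2 * C * V + 2 * C + 4 * C * L) := by
      rw [hQ]
      have r1 : 2 * M * (L * h) ≤ 2 * M * (L * δ) :=
        mul_le_mul_of_nonneg_left (q2.trans (mul_le_mul_of_nonneg_left q1 hL0)) (by positivity)
      have r2 : 2 * C * δ⁻¹ * (δ ^ 2 + 2 * (L * h)) ≤ 2 * C * δ⁻¹ * (δ ^ 2 + 2 * (L * δ ^ 2)) :=
        mul_le_mul_of_nonneg_left (by linarith) (by positivity)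
      have r3 : 2 * C * δ⁻¹ * (δ ^ 2 + 2 * (L * δ ^ 2)) =
          (2 * C + 4 * C * L) * (δ⁻¹ * δ ^ 2) := by ring
      rw [r3, q3] at r2
      have r4 : δ * (2 * M * L + 2 * C * V + 2 * C + 4 * C * L) = 2 * M * (L * δ) +
          2 * C * (δ * V) + (2 * C + 4 * C * L) * δ := by ring
      rw [r4]
      linarith
    rw [hE]
    have q5 : b * Q ≤ b * (δ * (2 * M * L + 2 * C * V + 2 * C + 4 * C * L)) :=
      mul_le_mul_of_nonneg_left q4 hb
    have q6 : δ * (1 + b * (2 * M * L + 2 * C * V + 2 * C + 4 * C * L)) = δ +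
        b * (δ * (2 * M * L + 2 * C * V + 2 * C + 4 * C * L)) := by ring
    rw [q6]
    linarith
  rw [e2, hR, ← mul_assoc]
  refine e1.trans (hfin.trans ?_)
  exact mul_le_mul e5 e3 (by positivity) (by positivity)

end Pool.Agent.Y407.DI
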